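import Mathlib

/-! Project BT (helper10), package BAD: a union bound for maps of six points. -/

set_option autoImplicit false

namespace Pool.Agent.Helper41.BT

open Finset

theorem eq_card {V : Type} [Fintype V] [DecidableEq V] {i j : Fin 6} (h : i ≠ j) :
    (univ.filter fun x : Fin 6 → V => x i = x j).card ≤ Fintype.card V ^ 5 := by
  classical
  have h1 : Fintype.card ({m : Fin 6 // m ≠ i} → V) = Fintype.card V ^ 5 := by
    rw [Fintype.card_fun]
    congr 1
    rw [Fintype.card_subtype_compl]
    simp
  rw [← h1, ← Finset.card_univ]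
  refine Finset.card_le_card_of_injOn (fun x m => x m.1) (fun _ _ => Finset.mem_coe.2 (mem_univ _))
    ?_
  intro x hx y hy hxy
  have hx' : x i = x j := (Finset.mem_filter.1 (Finset.mem_coe.1 hx)).2
  have hy' : y i = y j := (Finset.mem_filter.1 (Finset.mem_coe.1 hy)).2
  funext m
  by_cases hm : m = i
  · subst hm
    rw [hx', hy']
    exact congrFun hxy ⟨j, h.symm⟩
  · exact congrFun hxy ⟨m, hm⟩

theorem in_card {V : Type} [Fintype V] [DecidableEq V] (e : Finset V) (he : e.card = 4)
    {i j k l : Fin 6} (hij : i < j) (hjk : j < k) (hkl : k < l) :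
    (univ.filter fun x : Fin 6 → V => ({x i, x j, x k, x l} : Finset V) = e).card ≤
      256 * Fintype.card V ^ 2 := by
  classical
  let S : Finset (Fin 6) := {i, j, k, l}
  have hS : S.card = 4 := by
    have h1 : i ∉ ({j, k, l} : Finset (Fin 6)) := by
      simp only [mem_insert, mem_singleton, not_or]
      exact ⟨hij.ne, (hij.trans hjk).ne, ((hij.trans hjk).trans hkl).ne⟩
    have h2 : j ∉ ({k, l} : Finset (Fin 6)) := by
      simp only [mem_insert, mem_singleton, not_or]
      exact ⟨hjk.ne, (hjk.trans hkl).ne⟩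
    have h3 : k ∉ ({l} : Finset (Fin 6)) := by
      simp only [mem_singleton]
      exact hkl.ne
    show ({i, j, k, l} : Finset (Fin 6)).card = 4
    rw [card_insert_of_notMem h1, card_insert_of_notMem h2, card_insert_of_notMem h3,
      card_singleton]
  have hsub : (univ.filter fun x : Fin 6 → V => ({x i, x j, x k, x l} : Finset V) = e) ⊆
      Fintype.piFinset (fun m : Fin 6 => if m ∈ S then e else univ) := by
    intro x hx
    have hx' : ({x i, x j, x k, x l} : Finset V) = e := (Finset.mem_filter.1 hx).2
    rw [Fintype.mem_piFinset]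
    intro m
    split_ifs with hm
    · rw [← hx']
      have hm' : m = i ∨ m = j ∨ m = k ∨ m = l := by
        simpa [S] using hm
      rcases hm' with h | h | h | h <;> subst h <;> simp
    · exact mem_univ _
  refine (card_le_card hsub).trans ?_
  rw [Fintype.card_piFinset]
  have h1 : ∀ m : Fin 6, (if m ∈ S then e else univ : Finset V).card =
      if m ∈ S then 4 else Fintype.card V := by
    intro m
    split_ifs
    · exact he
    · exact card_univ
  rw [Finset.prod_congr rfl fun m _ => h1 m, Finset.prod_ite, prod_const, prod_const]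
  have h2 : (univ.filter fun m : Fin 6 => m ∈ S).card = 4 := by
    rw [Finset.filter_mem_eq_inter, univ_inter, hS]
  have h3 : (univ.filter fun m : Fin 6 => ¬ m ∈ S).card = 2 := by
    have := Finset.card_filter_add_card_filter_not (s := (univ : Finset (Fin 6))) (p := fun m => m ∈ S)
    rw [h2, card_univ, Fintype.card_fin] at this
    omega
  rw [h2, h3]
  norm_num

theorem bad_card {V : Type} [Fintype V] [DecidableEq V] (E : Finset (Finset V))
    (hE : ∀ e ∈ E, e.card = 4) :
    (Finset.univ.filter fun x : Fin 6 → V => ¬ (Function.Injective x ∧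
      ∀ i j k l : Fin 6, i < j → j < k → k < l → ({x i, x j, x k, x l} : Finset V) ∉ E)).card ≤
      36 * Fintype.card V ^ 5 + 1296 * (256 * (Fintype.card V ^ 2 * E.card)) := by
  classical
  let A : Finset (Fin 6 → V) := (univ : Finset (Fin 6 × Fin 6)).biUnion fun p =>
    univ.filter fun x : Fin 6 → V => p.1 ≠ p.2 ∧ x p.1 = x p.2
  let B : Finset (Fin 6 → V) := (univ : Finset (Fin 6 × Fin 6 × Fin 6 × Fin 6)).biUnion fun p =>
    univ.filter fun x : Fin 6 → V => (p.1 < p.2.1 ∧ p.2.1 < p.2.2.1 ∧ p.2.2.1 < p.2.2.2) ∧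
      ({x p.1, x p.2.1, x p.2.2.1, x p.2.2.2} : Finset V) ∈ E
  have hsub : (Finset.univ.filter fun x : Fin 6 → V => ¬ (Function.Injective x ∧
      ∀ i j k l : Fin 6, i < j → j < k → k < l → ({x i, x j, x k, x l} : Finset V) ∉ E)) ⊆
      A ∪ B := by
    intro x hx
    have hx' := (Finset.mem_filter.1 hx).2
    rw [not_and_or] at hx'
    rw [mem_union]
    rcases hx' with h | h
    · left
      rw [Function.Injective] at h
      push Not at h
      obtain ⟨a, b, hab, hne⟩ := h
      exact mem_biUnion.2 ⟨(a, b), mem_univ _, mem_filter.2 ⟨mem_univ _, hne, hab⟩⟩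
    · right
      push Not at h
      obtain ⟨a, b, c, d, h1, h2, h3, h4⟩ := h
      exact mem_biUnion.2 ⟨(a, b, c, d), mem_univ _,
        mem_filter.2 ⟨mem_univ _, ⟨h1, h2, h3⟩, h4⟩⟩
  refine (card_le_card hsub).trans ((card_union_le _ _).trans (add_le_add ?_ ?_))
  · refine (card_biUnion_le_card_mul _ _ (Fintype.card V ^ 5) ?_).trans ?_
    · rintro ⟨a, b⟩ -
      by_cases hab : a = b
      · rw [filter_eq_empty_iff.2 fun x _ h => h.1 hab, card_empty]
        exact Nat.zero_le _
      · refine le_trans (card_le_card fun x hx => ?_) (eq_card hab)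
        exact mem_filter.2 ⟨mem_univ _, (mem_filter.1 hx).2.2⟩
    · rw [card_univ, Fintype.card_prod, Fintype.card_fin]
  · refine (card_biUnion_le_card_mul _ _ (256 * (Fintype.card V ^ 2 * E.card)) ?_).trans ?_
    · rintro ⟨a, b, c, d⟩ -
      by_cases hab : a < b ∧ b < c ∧ c < d
      · have hs : (univ.filter fun x : Fin 6 → V => (a < b ∧ b < c ∧ c < d) ∧
            ({x a, x b, x c, x d} : Finset V) ∈ E) ⊆
            E.biUnion fun e => univ.filter fun x : Fin 6 → V =>
              ({x a, x b, x c, x d} : Finset V) = e := by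
          intro x hx
          have h1 := (mem_filter.1 hx).2.2
          exact mem_biUnion.2 ⟨_, h1, mem_filter.2 ⟨mem_univ _, rfl⟩⟩
        refine (card_le_card hs).trans ((card_biUnion_le_card_mul _ _ (256 * Fintype.card V ^ 2)
          fun e he => in_card e (hE e he) hab.1 hab.2.1 hab.2.2).trans (le_of_eq ?_))
        ring
      · rw [filter_eq_empty_iff.2 fun x _ h => hab h.1, card_empty]
        exact Nat.zero_le _
    · rw [card_univ, Fintype.card_prod, Fintype.card_prod, Fintype.card_prod, Fintype.card_fin]

end Pool.Agent.Helper41.BT
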